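import Pool.Agent.E8helper60.NP.StmA

/-! Project NP, piece NP1 (TUP). -/

set_option autoImplicit false

open scoped Classical

namespace Pool.Agent.E8helper22.NP

open Pool.Agent.E8helper60.NP

/-- the sum of an invariant function over a union of cycles -/
theorem orbsum {α : Type} (r : α → α) (hr : Function.Injective r) (w : α → ℤ)
    (hw : ∀ x, w (r x) = w x) (q : ℕ) : ∀ (n : ℕ) (S : Finset α), S.card = n →
    (∀ x ∈ S, r x ∈ S) → (∀ x ∈ S, 0 < Function.minimalPeriod r x ∧
      q ∣ Function.minimalPeriod r x) → (q : ℤ) ∣ ∑ x ∈ S, w x := by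
  intro n
  induction n using Nat.strong_induction_on with
  | _ n ih =>
    intro S hn hS hP
    rcases S.eq_empty_or_nonempty with rfl | ⟨x, hx⟩
    · simp
    · obtain ⟨hP0, hPq⟩ := hP x hx
      obtain ⟨P, hPd⟩ : ∃ P, P = Function.minimalPeriod r x := ⟨_, rfl⟩
      rw [← hPd] at hP0 hPq
      set O : Finset α := (Finset.range P).image (fun i => r^[i] x) with hO
      have hiter : ∀ i, r^[i] x ∈ S := by
        intro i
        induction i with
        | zero => simpa using hx
        | succ i ih2 =>
          rw [Function.iterate_succ_apply']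
          exact hS _ ih2
      have hOS : O ⊆ S := by
        intro y hy
        obtain ⟨i, -, rfl⟩ := Finset.mem_image.1 hy
        exact hiter i
      have hinj : Set.InjOn (fun i => r^[i] x) (Finset.range P : Set ℕ) := by
        have h1 := Function.iterate_injOn_Iio_minimalPeriod (f := r) (x := x)
        intro i hi j hj hij
        rw [Finset.coe_range] at hi hj
        rw [← hPd] at h1
        exact h1 hi hj hij
      have hwi : ∀ i, w (r^[i] x) = w x := by
        intro i
        induction i with
        | zero => rfl
        | succ i ih2 => rw [Function.iterate_succ_apply', hw, ih2]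
      have hsumO : ∑ y ∈ O, w y = P * w x := by
        rw [hO, Finset.sum_image hinj]
        rw [Finset.sum_congr rfl (fun i _ => hwi i)]
        simp
      have hxO : x ∈ O := Finset.mem_image.2 ⟨0, Finset.mem_range.2 hP0, rfl⟩
      have hrec : (q : ℤ) ∣ ∑ y ∈ S \ O, w y := by
        refine ih (S \ O).card ?_ (S \ O) rfl ?_ ?_
        · rw [← hn]
          refine Finset.card_lt_card ⟨Finset.sdiff_subset, ?_⟩
          intro h
          exact (Finset.mem_sdiff.1 (h hx)).2 hxO
        · intro y hy
          obtain ⟨hyS, hyO⟩ := Finset.mem_sdiff.1 hy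
          refine Finset.mem_sdiff.2 ⟨hS y hyS, fun h => hyO ?_⟩
          obtain ⟨i, hi, hiy⟩ := Finset.mem_image.1 h
          rw [Finset.mem_range] at hi
          rcases i with _ | i
          · refine Finset.mem_image.2 ⟨P - 1, Finset.mem_range.2 (by omega), ?_⟩
            apply hr
            rw [← Function.iterate_succ_apply' r (P - 1) x, show (P - 1).succ = P by omega, hPd,
              Function.iterate_minimalPeriod]
            simpa using hiy
          · refine Finset.mem_image.2 ⟨i, Finset.mem_range.2 (by omega), ?_⟩
            apply hr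
            rw [← hiy, Function.iterate_succ_apply']
        · intro y hy
          exact hP y (Finset.mem_sdiff.1 hy).1
      rw [← Finset.sum_sdiff hOS, hsumO]
      refine dvd_add hrec (Dvd.dvd.mul_right ?_ _)
      exact_mod_cast hPq

/-- commuting words -/
theorem word {G : Type} [Group G] (u : List G) : ∀ (e : ℕ) (w : List G), w.length = e * u.length →
    u ++ w = w ++ u → w.prod = u.prod ^ e := by
  intro e
  induction e with
  | zero =>
    intro w hw _
    have : w = [] := List.length_eq_zero_iff.1 (by omega)
    simp [this]
  | succ e ih =>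
    intro w hw h
    have hle : u.length ≤ w.length := by
      rw [hw]; exact Nat.le_mul_of_pos_left _ (by omega)
    have h1 : u = w.take u.length := by
      have h2 := congrArg (List.take u.length) h
      rw [List.take_left', List.take_append_of_le_length hle] at h2
      · exact h2
      · rfl
    obtain ⟨w', hw'⟩ : ∃ w', w = u ++ w' := ⟨w.drop u.length, by
      conv_lhs => rw [← List.take_append_drop u.length w]
      rw [← h1]⟩
    have h3 : u ++ w' = w' ++ u := by
      rw [hw', List.append_assoc] at h
      exact List.append_cancel_left h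
    have h4 : w'.length = e * u.length := by
      have := congrArg List.length hw'
      rw [List.length_append, hw] at this
      have h5 : (e + 1) * u.length = e * u.length + u.length := by ring
      omega
    rw [hw', List.prod_append, ih w' h4 h3, pow_succ']

/-- a tuple of period `d` has product a power -/
theorem per {G : Type} [Group G] (l : List G) (d e : ℕ) (hd : l.length = (e + 1) * d)
    (h : l.rotate d = l) : l.prod = (l.take d).prod ^ (e + 1) := by
  have hle : d ≤ l.length := by rw [hd]; exact Nat.le_mul_of_pos_left _ (by omega)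
  have h1 : (l.take d).length = d := by rw [List.length_take]; omega
  rw [List.rotate_eq_drop_append_take hle] at h
  have h2 : l.take d ++ l.drop d = l.drop d ++ l.take d := by
    rw [h, List.take_append_drop]
  have h3 := word (l.take d) e (l.drop d) (by
    rw [List.length_drop, h1, hd]
    have h5 : (e + 1) * d = e * d + d := by ring
    omega) h2
  conv_lhs => rw [← List.take_append_drop d l]
  rw [List.prod_append, h3, pow_succ']

theorem ord {G : Type} [Group G] [Finite G] (p : ℕ) (hp : p.Prime) : ∀ (i : ℕ) (h : G),
    p ∣ orderOf (h ^ (p ^ i)) → p ^ (i + 1) ∣ orderOf h := by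
  intro i
  induction i with
  | zero => intro h hh; simpa using hh
  | succ i ih =>
    intro h hh
    rw [pow_succ' p i, pow_mul] at hh
    have h1 := ih (h ^ p) hh
    have h2 : p ∣ orderOf h := by
      have h3 : p ∣ orderOf (h ^ p) := (dvd_pow_self p (by omega)).trans h1
      exact h3.trans (orderOf_pow_dvd p)
    rw [orderOf_pow_of_dvd hp.ne_zero h2] at h1
    obtain ⟨c, hc⟩ := h2
    rw [hc, Nat.mul_div_cancel_left _ hp.pos] at h1
    rw [hc, pow_succ']
    exact Nat.mul_dvd_mul_left _ h1

section
variable {G : Type} [Group G] [Fintype G]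

/-- the lists of length `n` -/
noncomputable def L (G : Type) [Fintype G] : ℕ → Finset (List G)
  | 0 => {[]}
  | n + 1 => (Finset.univ ×ˢ L G n).image (fun x => x.1 :: x.2)

theorem mem_L (G : Type) [Fintype G] : ∀ (n : ℕ) (l : List G), l ∈ L G n ↔ l.length = n := by
  intro n
  induction n with
  | zero => intro l; simp [L]
  | succ n ih =>
    intro l
    rw [L, Finset.mem_image]
    constructor
    · rintro ⟨⟨g, t⟩, h, rfl⟩
      rw [Finset.mem_product] at h
      simp [(ih t).1 h.2]
    · intro h
      rcases l with _ | ⟨g, t⟩
      · simp at h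
      · refine ⟨(g, t), Finset.mem_product.2 ⟨Finset.mem_univ _, (ih t).2 ?_⟩, rfl⟩
        simpa using h

omit [Group G] in
theorem sum_L (n : ℕ) (F : List G → ℤ) :
    ∑ l ∈ L G (n + 1), F l = ∑ g : G, ∑ l ∈ L G n, F (g :: l) := by
  rw [L, Finset.sum_image, Finset.sum_product]
  rintro ⟨a, b⟩ _ ⟨c, d⟩ _ h
  simp only [List.cons.injEq] at h
  exact Prod.ext h.1 h.2

theorem cpow_eq (a : G → ℤ) : ∀ (n : ℕ) (k : G),
    cpow a n k = ∑ l ∈ L G n, if l.prod = k then (l.map a).prod else 0 := by
  intro n
  induction n with
  | zero =>
    intro k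
    rw [cpow, L, Finset.sum_singleton]
    simp only [List.prod_nil, List.map_nil]
    by_cases h : k = 1
    · subst h; simp
    · rw [Pi.single_eq_of_ne h, if_neg (Ne.symm h)]
  | succ n ih =>
    intro k
    rw [cpow, cv, finsum_eq_sum_of_fintype, sum_L]
    refine Finset.sum_congr rfl fun y _ => ?_
    rw [ih, Finset.mul_sum]
    refine Finset.sum_congr rfl fun l _ => ?_
    rw [List.prod_cons, List.map_cons, List.prod_cons, mul_ite, mul_zero]
    congr 1
    rw [eq_iff_iff]
    constructor
    · intro h; rw [h]; group
    · intro h; rw [← h]; group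

end

theorem rot_iter {G : Type} (l : List G) : ∀ i, (fun t : List G => t.rotate 1)^[i] l = l.rotate i := by
  intro i
  induction i with
  | zero => simp
  | succ i ih => rw [Function.iterate_succ_apply', ih, List.rotate_rotate]

theorem t_TUP : S_TUP := by
  intro p hpf G _ _ a m x hx
  have hp : p.Prime := hpf.out
  have := Fintype.ofFinite G
  set n := p ^ m with hn
  have hn0 : 0 < n := pow_pos hp.pos m
  set T : Finset (List G) := (L G n).filter (fun l => IsConj x l.prod) with hT
  have hsum : (∑ᶠ k : G, if IsConj x k then cpow a n k else 0) = ∑ l ∈ T, (l.map a).prod := by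
    rw [finsum_eq_sum_of_fintype]
    have h1 : ∀ k : G, (if IsConj x k then cpow a n k else 0) =
        ∑ l ∈ L G n, if l.prod = k then (if IsConj x l.prod then (l.map a).prod else 0) else 0 := by
      intro k
      rw [cpow_eq]
      split_ifs with hk
      · refine Finset.sum_congr rfl fun l _ => ?_
        split_ifs with h2 h3
        · rfl
        · rw [h2] at h3; exact absurd hk h3
        · rfl
      · symm
        refine Finset.sum_eq_zero fun l _ => ?_
        split_ifs with h2 h3
        · rw [h2] at h3; exact absurd h3 hk
        · rfl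
        · rfl
    rw [Finset.sum_congr rfl (fun k _ => h1 k), Finset.sum_comm, hT, Finset.sum_filter]
    refine Finset.sum_congr rfl fun l _ => ?_
    rw [Finset.sum_ite_eq]
    simp
  suffices hgoal : (p : ℤ) ^ (m + 1 - (Nat.card G).factorization p) ∣
      ∑ᶠ k : G, if IsConj x k then cpow a n k else 0 by
    convert hgoal
  rw [hsum]
  have hmain := orbsum (fun t : List G => t.rotate 1) (List.rotate_injective 1)
    (fun l => (l.map a).prod) (fun l => ((l.rotate_perm 1).map a).prod_eq)
    (p ^ (m + 1 - (Nat.card G).factorization p)) T.card T rfl ?_ ?_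
  · exact_mod_cast hmain
  · intro l hl
    obtain ⟨h1, h2⟩ := Finset.mem_filter.1 hl
    rw [mem_L] at h1
    refine Finset.mem_filter.2 ⟨?_, ?_⟩
    · rw [mem_L, List.length_rotate, h1]
    · refine h2.trans ?_
      rcases l with _ | ⟨g, t⟩
      · simp
      · rw [List.rotate_cons_succ, List.rotate_zero, List.prod_append, List.prod_cons,
          List.prod_cons, List.prod_nil, mul_one]
        rw [isConj_iff]
        exact ⟨g⁻¹, by group⟩
  · intro l hl
    obtain ⟨h1, h2⟩ := Finset.mem_filter.1 hl
    rw [mem_L] at h1
    have hper : Function.IsPeriodicPt (fun t : List G => t.rotate 1) n l := by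
      unfold Function.IsPeriodicPt Function.IsFixedPt
      rw [rot_iter, ← h1, List.rotate_length]
    have hpos := hper.minimalPeriod_pos hn0
    have hdvd := hper.minimalPeriod_dvd
    refine ⟨hpos, ?_⟩
    obtain ⟨j, hj, hje⟩ := (Nat.dvd_prime_pow hp).1 hdvd
    rw [hje]
    apply pow_dvd_pow
    -- the product is a power
    have hfix : l.rotate (p ^ j) = l := by
      have h3 := Function.iterate_minimalPeriod (f := fun t : List G => t.rotate 1) (x := l)
      rw [rot_iter, hje] at h3
      exact h3
    have hpj : 0 < p ^ (m - j) := pow_pos hp.pos _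
    have hlen : l.length = (p ^ (m - j) - 1 + 1) * p ^ j := by
      rw [h1, hn, Nat.sub_add_cancel hpj, ← pow_add]; congr 1; omega
    have hprod := per l (p ^ j) (p ^ (m - j) - 1) hlen hfix
    rw [Nat.sub_add_cancel hpj] at hprod
    have hord : orderOf l.prod = orderOf x := by
      obtain ⟨c, hc⟩ := isConj_iff.1 h2
      rw [← hc]
      have := orderOf_injective (MulAut.conj c).toMonoidHom (MulAut.conj c).injective x
      simpa using this
    have h4 : p ∣ orderOf ((l.take (p ^ j)).prod ^ (p ^ (m - j))) := by
      rw [← hprod, hord]; exact hx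
    have h5 := ord p hp (m - j) _ h4
    have h6 : p ^ (m - j + 1) ∣ Nat.card G := h5.trans (orderOf_dvd_natCard _)
    have h7 : m - j + 1 ≤ (Nat.card G).factorization p :=
      (hp.pow_dvd_iff_le_factorization Nat.card_pos.ne').1 h6
    omega

end Pool.Agent.E8helper22.NP
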